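import Pool.Agent.Helper60.RR.Dual

set_option autoImplicit false
set_option linter.unusedSectionVars false

open MeasureTheory Filter Topology
open scoped ENNReal

namespace Pool.Agent.Helper60.RR

lemma BM.sq' {Ω : Type*} [MeasurableSpace Ω] {f : Ω → ℝ} (hf : BM f) : BM (fun ω => f ω ^ 2) := by
  have := hf.mul hf
  have e : (fun ω => f ω ^ 2) = f * f := by
    ext ω; rw [Pi.mul_apply, sq]
  rw [e]; exact this

namespace Act

variable {Ω : Type*} [MeasurableSpace Ω] {E : Type*} [NormedAddCommGroup E] [NormedSpace ℝ E]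
variable {R : Act Ω E}

lemma quad_const {h : ℝ → ℝ} {C : ℝ} (hC : ∀ s t, |h s - h t| ≤ C * (s - t) ^ 2) (s t : ℝ) :
    h s = h t := by
  have hd : ∀ u, HasDerivAt h 0 u := by
    intro u
    rw [hasDerivAt_iff_isLittleO]
    simp only [smul_zero, sub_zero]
    have h1 : (fun x' => h x' - h u) =O[𝓝 u] fun x' => (x' - u) ^ 2 := by
      refine Asymptotics.IsBigO.of_bound C (Eventually.of_forall fun x' => ?_)
      rw [Real.norm_eq_abs, Real.norm_eq_abs, abs_of_nonneg (sq_nonneg (x' - u))]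
      exact hC x' u
    refine h1.trans_isLittleO ?_
    have h2 : (fun x' : ℝ => (x' - u) ^ 2) =o[𝓝 u] fun x' => (x' - u) ^ 1 := by
      have h3 : (fun y : ℝ => y ^ 2) =o[𝓝 0] fun y => y ^ 1 :=
        Asymptotics.isLittleO_pow_pow one_lt_two
      have h4 : Tendsto (fun x' : ℝ => x' - u) (𝓝 u) (𝓝 0) := by
        have := (continuous_id.sub continuous_const).tendsto (x := u) (f := fun x' : ℝ => x' - u)
        simpa using this
      exact h3.comp_tendsto h4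
    simpa using h2
  exact is_const_of_deriv_eq_zero (fun u => (hd u).differentiableAt) (fun u => (hd u).deriv) s t

lemma Pack.integrable {x : E} {χ : E →L[ℝ] ℝ} {m : Measure Ω}
    (h : R.Pack x χ m) {g : Ω → ℝ} (hg : BM g) : Integrable g m := by
  have := h.fin
  obtain ⟨hg1, C, hC⟩ := hg
  exact Integrable.of_bound hg1.aestronglyMeasurable C (Eventually.of_forall hC)

/-- a bounded function with zero integrals on the invariant sets is orthogonal to the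
invariant functions -/
lemma Pack.orth {x : E} {χ : E →L[ℝ] ℝ} {m : Measure Ω} (h : R.Pack x χ m)
    {q ρ : Ω → ℝ} (hq : BM q) (hB : ∀ B, R.Inv B → ∫ ω in B, q ω ∂m = 0)
    (hρ : Measurable[R.mB] ρ) (hρi : Integrable ρ m) : ∫ ω, ρ ω * q ω ∂m = 0 := by
  have := h.fin
  have hqi : Integrable q m := h.integrable hq
  have h0 : (0 : Ω → ℝ) =ᵐ[m] m[q|R.mB] := by
    refine ae_eq_condExp_of_forall_setIntegral_eq R.mB_le hqi
      (fun s _ _ => (integrable_zero _ _ _).integrableOn) ?_ ?_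
    · intro s hs _
      rw [hB s hs]
      simp
    · exact stronglyMeasurable_zero.aestronglyMeasurable
  have hi : Integrable (ρ * q) m := by
    obtain ⟨hq1, C, hC⟩ := hq
    exact hρi.mul_bdd (c := C) hq1.aestronglyMeasurable (Eventually.of_forall hC)
  have h1 : m[ρ * q|R.mB] =ᵐ[m] ρ * m[q|R.mB] :=
    condExp_mul_of_stronglyMeasurable_left hρ.stronglyMeasurable hi hqi
  have h2 : ∫ ω, (m[ρ * q|R.mB]) ω ∂m = ∫ ω, (ρ * q) ω ∂m := integral_condExp R.mB_le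
  have h3 : ∫ ω, (m[ρ * q|R.mB]) ω ∂m = 0 := by
    have h4 : m[ρ * q|R.mB] =ᵐ[m] 0 := by
      filter_upwards [h1, h0] with ω e1 e2
      rw [e1, Pi.mul_apply, ← e2, Pi.zero_apply, mul_zero]
    rw [integral_congr_ae h4]
    simp
  rw [h3] at h2
  exact h2.symm

/-- quadratic closeness of the norms -/
lemma Pack.close {x : E} {χ : E →L[ℝ] ℝ} {m : Measure Ω} (h : R.Pack x χ m)
    {u v : Ω → ℝ} (hu : Measurable u) (hv : Measurable v) {δ C B : ℝ} (hδ : 0 < δ)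
    (hu1 : ∀ ω, δ ≤ u ω) (hu2 : ∀ ω, u ω ≤ C) (hv1 : ∀ ω, δ ≤ v ω) (hv2 : ∀ ω, v ω ≤ C)
    (hB : ∀ ω, |u ω - v ω| ≤ B)
    (heq : ∀ B, R.Inv B → ∫ ω in B, u ω ^ 2 ∂m = ∫ ω in B, v ω ^ 2 ∂m) :
    ‖R.M u x‖ - ‖R.M v x‖ ≤ ‖x‖ / (2 * δ) * B ^ 2 := by
  have hfin := h.fin
  obtain ⟨ρ, φ, hρm, hρ0, hρi, hφ, hint⟩ := h.dual hu hδ hu1 hu2
  have hu0 : ∀ ω, 0 < u ω := fun ω => hδ.trans_le (hu1 ω)
  have hv0 : ∀ ω, 0 < v ω := fun ω => hδ.trans_le (hv1 ω)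
  have bu : BM u := ⟨hu, C, fun ω => by rw [Real.norm_eq_abs, abs_of_pos (hu0 ω)]; exact hu2 ω⟩
  have bv : BM v := ⟨hv, C, fun ω => by rw [Real.norm_eq_abs, abs_of_pos (hv0 ω)]; exact hv2 ω⟩
  have hmulI : ∀ {g : Ω → ℝ}, BM g → Integrable (fun ω => ρ ω * g ω) m := by
    rintro g ⟨hg1, K, hK⟩
    exact hρi.mul_bdd (c := K) hg1.aestronglyMeasurable (Eventually.of_forall hK)
  have e1 : ‖R.M u x‖ = ∫ ω, ρ ω * u ω * u ω ∂m := by rw [← hφ.2]; exact hint u bu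
  have e2 : ∫ ω, ρ ω * u ω * v ω ∂m ≤ ‖R.M v x‖ := by rw [← hint v bv]; exact hφ.le _
  have e3 : ∫ ω, ρ ω * u ω ∂m ≤ ‖x‖ := by
    have h1 := hφ.le (R.M 1 x)
    rw [hint 1 BM.one, R.one] at h1
    simpa using h1
  have e4 : δ * ∫ ω, ρ ω ∂m ≤ ‖x‖ := by
    refine le_trans ?_ e3
    rw [← integral_const_mul]
    refine integral_mono (hρi.const_mul δ) (hmulI bu) fun ω => ?_
    change δ * ρ ω ≤ ρ ω * u ω
    rw [mul_comm]
    exact mul_le_mul_of_nonneg_left (hu1 ω) (hρ0 ω)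
  have e5 : ∫ ω, ρ ω * (u ω ^ 2 - v ω ^ 2) ∂m = 0 := by
    refine h.orth (q := fun ω => u ω ^ 2 - v ω ^ 2) (bu.sq'.sub bv.sq') ?_ hρm hρi
    intro S hS
    rw [integral_sub (h.integrable bu.sq').integrableOn (h.integrable bv.sq').integrableOn,
      heq S hS, sub_self]
  have bd : BM (fun ω => (u ω - v ω) ^ 2) := (bu.sub bv).sq'
  have e6 : ∫ ω, ρ ω * (u ω - v ω) ^ 2 ∂m ≤ B ^ 2 * ∫ ω, ρ ω ∂m := by
    rw [← integral_const_mul]
    refine integral_mono (hmulI bd) (hρi.const_mul _) fun ω => ?_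
    change ρ ω * (u ω - v ω) ^ 2 ≤ B ^ 2 * ρ ω
    rw [mul_comm]
    refine mul_le_mul_of_nonneg_right ?_ (hρ0 ω)
    rw [← sq_abs]
    exact pow_le_pow_left₀ (abs_nonneg _) (hB ω) 2
  have iuu : Integrable (fun ω => ρ ω * u ω * u ω) m := by
    have := hmulI (bu.mul bu)
    simpa [mul_assoc] using this
  have iuv : Integrable (fun ω => ρ ω * u ω * v ω) m := by
    have := hmulI (bu.mul bv)
    simpa [mul_assoc] using this
  have i1 : Integrable (fun ω => ρ ω * (u ω ^ 2 - v ω ^ 2)) m := hmulI (bu.sq'.sub bv.sq')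
  have i2 : Integrable (fun ω => ρ ω * (u ω - v ω) ^ 2) m := hmulI bd
  have e7 : ∫ ω, ρ ω * u ω * u ω ∂m - ∫ ω, ρ ω * u ω * v ω ∂m
      = 1 / 2 * ∫ ω, ρ ω * (u ω ^ 2 - v ω ^ 2) ∂m + 1 / 2 * ∫ ω, ρ ω * (u ω - v ω) ^ 2 ∂m := by
    rw [← integral_sub iuu iuv, ← integral_const_mul, ← integral_const_mul,
      ← integral_add (i1.const_mul _) (i2.const_mul _)]
    congr 1
    ext ω
    ring
  have hρI : 0 ≤ ∫ ω, ρ ω ∂m := integral_nonneg hρ0
  have e8 : ∫ ω, ρ ω ∂m ≤ ‖x‖ / δ := by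
    rw [le_div_iff₀ hδ, mul_comm]; exact e4
  rw [e5] at e7
  calc ‖R.M u x‖ - ‖R.M v x‖ ≤ ∫ ω, ρ ω * u ω * u ω ∂m - ∫ ω, ρ ω * u ω * v ω ∂m := by
        rw [e1]; linarith
    _ ≤ 1 / 2 * (B ^ 2 * ∫ ω, ρ ω ∂m) := by rw [e7]; linarith
    _ ≤ 1 / 2 * (B ^ 2 * (‖x‖ / δ)) := by
        have := mul_le_mul_of_nonneg_left e8 (sq_nonneg B)
        linarith
    _ = ‖x‖ / (2 * δ) * B ^ 2 := by field_simp

/-- the case of functions bounded away from zero -/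
lemma Pack.eqnorm_pos {x : E} {χ : E →L[ℝ] ℝ} {m : Measure Ω} (h : R.Pack x χ m)
    {f g : Ω → ℝ} (hf : Measurable f) (hg : Measurable g) {δ C : ℝ} (hδ : 0 < δ)
    (hf1 : ∀ ω, δ ≤ f ω) (hf2 : ∀ ω, f ω ≤ C) (hg1 : ∀ ω, δ ≤ g ω) (hg2 : ∀ ω, g ω ≤ C)
    (heq : ∀ B, R.Inv B → ∫ ω in B, f ω ^ 2 ∂m = ∫ ω in B, g ω ^ 2 ∂m) :
    ‖R.M f x‖ = ‖R.M g x‖ := by
  have hfin := h.fin
  have hf0 : ∀ ω, 0 < f ω := fun ω => hδ.trans_le (hf1 ω)
  have hg0 : ∀ ω, 0 < g ω := fun ω => hδ.trans_le (hg1 ω)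
  have bf : BM f := ⟨hf, C, fun ω => by rw [Real.norm_eq_abs, abs_of_pos (hf0 ω)]; exact hf2 ω⟩
  have bg : BM g := ⟨hg, C, fun ω => by rw [Real.norm_eq_abs, abs_of_pos (hg0 ω)]; exact hg2 ω⟩
  set σ : ℝ → ℝ := fun s => max 0 (min s 1) with hσ
  have hσ0 : ∀ s, 0 ≤ σ s := fun s => le_max_left _ _
  have hσ1 : ∀ s, σ s ≤ 1 := fun s => max_le zero_le_one (min_le_right _ _)
  have hσL : ∀ s t, |σ s - σ t| ≤ |s - t| := by
    intro s t
    have e1 := abs_max_sub_max_le_max 0 (min s 1) 0 (min t 1)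
    have e2 := abs_min_sub_min_le_max s 1 t 1
    refine e1.trans ?_
    rw [sub_self, abs_zero] at *
    exact max_le (abs_nonneg _) (e2.trans (max_le le_rfl (abs_nonneg _)))
  set Q : ℝ → Ω → ℝ := fun s ω => (1 - σ s) * f ω ^ 2 + σ s * g ω ^ 2 with hQ
  have hQ1 : ∀ s ω, δ ^ 2 ≤ Q s ω := by
    intro s ω
    have h1 : δ ^ 2 ≤ f ω ^ 2 := pow_le_pow_left₀ hδ.le (hf1 ω) 2
    have h2 : δ ^ 2 ≤ g ω ^ 2 := pow_le_pow_left₀ hδ.le (hg1 ω) 2
    simp only [hQ]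
    nlinarith [hσ0 s, hσ1 s]
  have hQ2 : ∀ s ω, Q s ω ≤ C ^ 2 := by
    intro s ω
    have h1 : f ω ^ 2 ≤ C ^ 2 := pow_le_pow_left₀ (hf0 ω).le (hf2 ω) 2
    have h2 : g ω ^ 2 ≤ C ^ 2 := pow_le_pow_left₀ (hg0 ω).le (hg2 ω) 2
    simp only [hQ]
    nlinarith [hσ0 s, hσ1 s]
  have hQm : ∀ s, Measurable (Q s) := fun s =>
    ((hf.pow_const 2).const_mul _).add ((hg.pow_const 2).const_mul _)
  set W : ℝ → Ω → ℝ := fun s ω => √(Q s ω) with hW
  have hWm : ∀ s, Measurable (W s) := fun s => (hQm s).sqrt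
  have hWsq : ∀ s ω, W s ω ^ 2 = Q s ω := fun s ω =>
    Real.sq_sqrt ((sq_nonneg δ).trans (hQ1 s ω))
  have hW1 : ∀ s ω, δ ≤ W s ω := fun s ω => Real.le_sqrt_of_sq_le (hQ1 s ω)
  have hC0 : ∀ _ω : Ω, 0 ≤ C := fun ω => (hf0 ω).le.trans (hf2 ω)
  have hW2 : ∀ s ω, W s ω ≤ C := fun s ω => by
    rw [hW]
    exact Real.sqrt_le_iff.mpr ⟨hC0 ω, hQ2 s ω⟩
  have hWd : ∀ s t ω, |W s ω - W t ω| ≤ C ^ 2 / (2 * δ) * |s - t| := by
    intro s t ω
    have h1 : (W s ω - W t ω) * (W s ω + W t ω) = (σ s - σ t) * (g ω ^ 2 - f ω ^ 2) := by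
      have : (W s ω - W t ω) * (W s ω + W t ω) = W s ω ^ 2 - W t ω ^ 2 := by ring
      rw [this, hWsq, hWsq]
      simp only [hQ]
      ring
    have h2 : 2 * δ ≤ W s ω + W t ω := by linarith [hW1 s ω, hW1 t ω]
    have h3 : |g ω ^ 2 - f ω ^ 2| ≤ C ^ 2 := by
      have a1 : f ω ^ 2 ≤ C ^ 2 := pow_le_pow_left₀ (hf0 ω).le (hf2 ω) 2
      have a2 : g ω ^ 2 ≤ C ^ 2 := pow_le_pow_left₀ (hg0 ω).le (hg2 ω) 2
      rw [abs_le]
      constructor
      · nlinarith [sq_nonneg (g ω), sq_nonneg (f ω)]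
      · nlinarith [sq_nonneg (g ω), sq_nonneg (f ω)]
    have h4 : |W s ω - W t ω| * (2 * δ) ≤ |s - t| * C ^ 2 := by
      calc |W s ω - W t ω| * (2 * δ) ≤ |W s ω - W t ω| * (W s ω + W t ω) :=
            mul_le_mul_of_nonneg_left h2 (abs_nonneg _)
        _ = |(W s ω - W t ω) * (W s ω + W t ω)| := by
            rw [abs_mul, abs_of_pos (a := W s ω + W t ω) (by linarith)]
        _ = |σ s - σ t| * |g ω ^ 2 - f ω ^ 2| := by rw [h1, abs_mul]
        _ ≤ |s - t| * C ^ 2 := mul_le_mul (hσL s t) h3 (abs_nonneg _) (abs_nonneg _)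
    have h5 : |W s ω - W t ω| ≤ |s - t| * C ^ 2 / (2 * δ) := by
      rw [le_div_iff₀ (by positivity)]
      exact h4
    calc |W s ω - W t ω| ≤ |s - t| * C ^ 2 / (2 * δ) := h5
      _ = C ^ 2 / (2 * δ) * |s - t| := by ring
  have hWeq : ∀ s B, R.Inv B → ∫ ω in B, W s ω ^ 2 ∂m = ∫ ω in B, f ω ^ 2 ∂m := by
    intro s B hB
    simp_rw [hWsq s]
    simp only [hQ]
    rw [integral_add ((h.integrable bf.sq').integrableOn.const_mul _)
      ((h.integrable bg.sq').integrableOn.const_mul _), integral_const_mul, integral_const_mul,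
      ← heq B hB]
    ring
  have hquad : ∀ s t, |‖R.M (W s) x‖ - ‖R.M (W t) x‖|
      ≤ (‖x‖ / (2 * δ) * (C ^ 2 / (2 * δ)) ^ 2) * (s - t) ^ 2 := by
    intro s t
    have h1 := h.close (hWm s) (hWm t) hδ (hW1 s) (hW2 s) (hW1 t) (hW2 t) (hWd s t)
      (fun B hB => by rw [hWeq s B hB, hWeq t B hB])
    have h2 := h.close (hWm t) (hWm s) hδ (hW1 t) (hW2 t) (hW1 s) (hW2 s) (hWd t s)
      (fun B hB => by rw [hWeq s B hB, hWeq t B hB])
    have e1 : (C ^ 2 / (2 * δ) * |s - t|) ^ 2 = (C ^ 2 / (2 * δ)) ^ 2 * (s - t) ^ 2 := by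
      rw [mul_pow, sq_abs]
    have e2 : (C ^ 2 / (2 * δ) * |t - s|) ^ 2 = (C ^ 2 / (2 * δ)) ^ 2 * (s - t) ^ 2 := by
      rw [abs_sub_comm, mul_pow, sq_abs]
    rw [e1, ← mul_assoc] at h1
    rw [e2, ← mul_assoc] at h2
    rw [abs_le]
    constructor <;> linarith
  have hG := quad_const (h := fun s => ‖R.M (W s) x‖) hquad 0 1
  have hσ_1 : σ 1 = 1 := by simp [hσ]
  have hσ_0 : σ 0 = 0 := by simp [hσ]
  have hW_0 : W 0 = f := by
    ext ω
    simp only [hW, hQ, hσ_0]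
    rw [sub_zero, one_mul, zero_mul, add_zero, Real.sqrt_sq (hf0 ω).le]
  have hW_1 : W 1 = g := by
    ext ω
    simp only [hW, hQ, hσ_1]
    rw [sub_self, one_mul, zero_mul, zero_add, Real.sqrt_sq (hg0 ω).le]
  simp only [hW_0, hW_1] at hG
  exact hG

/-- the norm only depends on the absolute value -/
lemma norm_abs (R : Act Ω E) {f : Ω → ℝ} (hf : BM f) (x : E) :
    ‖R.M (fun ω => |f ω|) x‖ = ‖R.M f x‖ := by
  set u : Ω → ℝ := fun ω => if f ω < 0 then -1 else 1 with hu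
  have hum : Measurable u :=
    Measurable.ite (measurableSet_lt hf.1 measurable_const) measurable_const measurable_const
  have hu1 : ∀ ω, ‖u ω‖ ≤ 1 := by
    intro ω
    by_cases h0 : f ω < 0 <;> simp [hu, h0]
  have hbu : BM u := ⟨hum, 1, hu1⟩
  have hba : BM (fun ω => |f ω|) := by
    obtain ⟨h1, C, hC⟩ := hf
    exact ⟨h1.abs, C, fun ω => by simpa using hC ω⟩
  have e1 : f = u * fun ω => |f ω| := by
    ext ω
    by_cases h0 : f ω < 0
    · simp [hu, h0, abs_of_neg h0]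
    · simp [hu, h0, abs_of_nonneg (not_lt.mp h0)]
  have e2 : (fun ω => |f ω|) = u * f := by
    ext ω
    by_cases h0 : f ω < 0
    · simp [hu, h0, abs_of_neg h0]
    · simp [hu, h0, abs_of_nonneg (not_lt.mp h0)]
  refine le_antisymm ?_ ?_
  · rw [e2, R.mul hbu hf]
    simpa using R.norm_le hbu hu1 zero_le_one (R.M f x)
  · conv_lhs => rw [e1]
    rw [R.mul hbu hba]
    simpa using R.norm_le hbu hu1 zero_le_one (R.M (fun ω => |f ω|) x)

/-- two bounded multiples of `x` with the same square integrals on invariant sets have the same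
norm -/
theorem Pack.eqnorm {x : E} {χ : E →L[ℝ] ℝ} {m : Measure Ω} (h : R.Pack x χ m)
    {f g : Ω → ℝ} (hf : BM f) (hg : BM g)
    (heq : ∀ B, R.Inv B → ∫ ω in B, f ω ^ 2 ∂m = ∫ ω in B, g ω ^ 2 ∂m) :
    ‖R.M f x‖ = ‖R.M g x‖ := by
  have hfin := h.fin
  obtain ⟨Cf, hCf⟩ := hf.2
  obtain ⟨Cg, hCg⟩ := hg.2
  set C := max |Cf| |Cg| with hC
  have hC0 : 0 ≤ C := (abs_nonneg _).trans (le_max_left _ _)
  have hfC : ∀ ω, |f ω| ≤ C := fun ω => (hCf ω).trans ((le_abs_self _).trans (le_max_left _ _))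
  have hgC : ∀ ω, |g ω| ≤ C := fun ω => (hCg ω).trans ((le_abs_self _).trans (le_max_right _ _))
  -- regularisation
  have reg : ∀ {k : Ω → ℝ}, BM k → ∀ ε : ℝ, 0 < ε →
      |‖R.M (fun ω => √(k ω ^ 2 + ε ^ 2)) x‖ - ‖R.M k x‖| ≤ ε * ‖x‖ := by
    intro k hk ε hε
    rw [← R.norm_abs hk x]
    obtain ⟨hk1, K, hK⟩ := hk
    have hba : BM (fun ω => |k ω|) := ⟨hk1.abs, K, fun ω => by simpa using hK ω⟩
    have hle : ∀ ω, √(k ω ^ 2 + ε ^ 2) ≤ |k ω| + ε := by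
      intro ω
      rw [Real.sqrt_le_iff]
      refine ⟨by positivity, ?_⟩
      have := abs_nonneg (k ω)
      nlinarith [sq_abs (k ω)]
    have hge : ∀ ω, |k ω| ≤ √(k ω ^ 2 + ε ^ 2) := by
      intro ω
      refine Real.le_sqrt_of_sq_le ?_
      rw [sq_abs]; nlinarith [sq_nonneg ε]
    have hbs : BM (fun ω => √(k ω ^ 2 + ε ^ 2)) := by
      refine ⟨((hk1.pow_const 2).add_const _).sqrt, K + ε, fun ω => ?_⟩
      rw [Real.norm_eq_abs, abs_of_nonneg (Real.sqrt_nonneg _)]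
      have := hK ω
      rw [Real.norm_eq_abs] at this
      linarith [hle ω]
    have hd : BM ((fun ω => √(k ω ^ 2 + ε ^ 2)) - fun ω => |k ω|) := hbs.sub hba
    have e1 : (fun ω => √(k ω ^ 2 + ε ^ 2))
        = (fun ω => |k ω|) + ((fun ω => √(k ω ^ 2 + ε ^ 2)) - fun ω => |k ω|) := by
      ext ω; simp
    have e2 : R.M (fun ω => √(k ω ^ 2 + ε ^ 2)) x - R.M (fun ω => |k ω|) x
        = R.M ((fun ω => √(k ω ^ 2 + ε ^ 2)) - fun ω => |k ω|) x := by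
      conv_lhs => rw [e1]
      rw [R.add hba hd, _root_.add_apply, add_sub_cancel_left]
    refine (abs_norm_sub_norm_le _ _).trans ?_
    rw [e2]
    refine R.norm_le hd (fun ω => ?_) hε.le x
    rw [Pi.sub_apply, Real.norm_eq_abs, abs_le]
    constructor
    · linarith [hge ω]
    · linarith [hle ω]
  have key : ∀ ε : ℝ, 0 < ε → |‖R.M f x‖ - ‖R.M g x‖| ≤ 2 * ε * ‖x‖ := by
    intro ε hε
    have bnd : ∀ {k : Ω → ℝ}, (∀ ω, |k ω| ≤ C) → ∀ ω, √(k ω ^ 2 + ε ^ 2) ≤ √(C ^ 2 + ε ^ 2) := by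
      intro k hk ω
      refine Real.sqrt_le_sqrt ?_
      have := pow_le_pow_left₀ (abs_nonneg _) (hk ω) 2
      rw [sq_abs] at this
      linarith
    have low : ∀ (k : Ω → ℝ) (ω : Ω), ε ≤ √(k ω ^ 2 + ε ^ 2) := by
      intro k ω
      refine Real.le_sqrt_of_sq_le ?_
      nlinarith [sq_nonneg (k ω)]
    have h1 : ‖R.M (fun ω => √(f ω ^ 2 + ε ^ 2)) x‖ = ‖R.M (fun ω => √(g ω ^ 2 + ε ^ 2)) x‖ := by
      refine h.eqnorm_pos ((hf.1.pow_const 2).add_const _).sqrt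
        ((hg.1.pow_const 2).add_const _).sqrt hε (low f) (bnd hfC) (low g) (bnd hgC) ?_
      intro B hB
      have e1 : ∀ k : Ω → ℝ, (fun ω => √(k ω ^ 2 + ε ^ 2) ^ 2) = fun ω => k ω ^ 2 + ε ^ 2 := by
        intro k
        ext ω
        exact Real.sq_sqrt (by positivity)
      rw [e1 f, e1 g, integral_add (h.integrable hf.sq').integrableOn (integrable_const _),
        integral_add (h.integrable hg.sq').integrableOn (integrable_const _), heq B hB]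
    have h2 := reg hf ε hε
    have h3 := reg hg ε hε
    rw [h1] at h2
    rw [abs_le] at h2 h3 ⊢
    constructor <;> linarith [h2.1, h2.2, h3.1, h3.2]
  by_contra hne
  have hpos : 0 < |‖R.M f x‖ - ‖R.M g x‖| := abs_pos.mpr (sub_ne_zero.mpr hne)
  have hx0 : 0 < ‖x‖ + 1 := by positivity
  have h4 := key (|‖R.M f x‖ - ‖R.M g x‖| / (4 * (‖x‖ + 1))) (by positivity)
  have h5 : 2 * (|‖R.M f x‖ - ‖R.M g x‖| / (4 * (‖x‖ + 1))) * ‖x‖
      ≤ |‖R.M f x‖ - ‖R.M g x‖| / 2 := by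
    have : 2 * (|‖R.M f x‖ - ‖R.M g x‖| / (4 * (‖x‖ + 1))) * ‖x‖
        = |‖R.M f x‖ - ‖R.M g x‖| / 2 * (‖x‖ / (‖x‖ + 1)) := by field_simp; ring
    rw [this]
    refine mul_le_of_le_one_right (by positivity) ?_
    rw [div_le_one hx0]
    linarith
  linarith

end Act
end Pool.Agent.Helper60.RR
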